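import Pool.Agent.Y242.LW.Stm

/-!
# Project LW: comparison of lengths by the maximum principle (job 1344)
-/

open Set Filter Topology Complex Metric

noncomputable section

namespace Y290.LW.Len

open LW242

/-- the Moebius map -/
def T (α β : ℝ) (w : ℂ) : ℂ := (w - (β : ℂ)) / (w - (α : ℂ))

lemma sub_ne {w : ℂ} (hw : 0 < w.im) (α : ℝ) : w - (α : ℂ) ≠ 0 := by
  intro h
  have := congrArg Complex.im h
  simp at this
  linarith

lemma T_im {α β : ℝ} {w : ℂ} (hw : 0 < w.im) :
    (T α β w).im = w.im * (β - α) / normSq (w - (α : ℂ)) := by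
  have h : normSq (w - (α : ℂ)) ≠ 0 := by
    rw [Ne, normSq_eq_zero]; exact sub_ne hw α
  unfold T
  rw [Complex.div_im]
  simp only [sub_re, ofReal_re, sub_im, ofReal_im]
  field_simp
  ring

lemma T_re {α β : ℝ} {w : ℂ} (hw : 0 < w.im) :
    (T α β w).re = ((w.re - β) * (w.re - α) + w.im ^ 2) / normSq (w - (α : ℂ)) := by
  have h : normSq (w - (α : ℂ)) ≠ 0 := by
    rw [Ne, normSq_eq_zero]; exact sub_ne hw α
  unfold T
  rw [Complex.div_re]
  simp only [sub_re, ofReal_re, sub_im, ofReal_im]
  field_simp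
  ring

lemma T_im_pos {α β : ℝ} (hab : α < β) {w : ℂ} (hw : 0 < w.im) : 0 < (T α β w).im := by
  rw [T_im hw]
  have h : 0 < normSq (w - (α : ℂ)) := by
    rw [normSq_pos]; exact sub_ne hw α
  have : 0 < β - α := by linarith
  positivity

lemma T_diff {α β : ℝ} {h : ℂ → ℂ} (hd : DifferentiableOn ℂ h Hp) (hm : MapsTo h Hp Hp)
    (hab : α < β) : DifferentiableOn ℂ (fun z => Complex.log (T α β (h z))) Hp := by
  apply DifferentiableOn.clog
  · unfold T
    apply DifferentiableOn.div
    · exact hd.sub_const _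
    · exact hd.sub_const _
    · intro z hz
      exact sub_ne (hm hz) α
  · intro z hz
    rw [mem_slitPlane_iff]
    right
    exact (T_im_pos hab (hm hz)).ne'

/-- argument of `T` near the segment -/
lemma arg_T_ge {α β δ η : ℝ} {w : ℂ} (hw : 0 < w.im) (hwη : w.im < η) (h1 : δ ≤ w.re - α)
    (h2 : δ ≤ β - w.re) (hη : η ≤ δ / 2) :
    Real.pi - η * (β - α) / (3 / 4 * δ ^ 2) ≤ (T α β w).arg := by
  have hδ : 0 < δ := by linarith
  have hab : α < β := by linarith
  have hTi := T_im_pos hab hw
  have hN : 0 < normSq (w - (α : ℂ)) := by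
    rw [normSq_pos]; exact sub_ne hw α
  have e := arg_neg_eq_arg_sub_pi_of_im_pos hTi
  -- real part of -T
  have hre : 0 < (β - w.re) * (w.re - α) - w.im ^ 2 := by nlinarith
  have hre' : 3 / 4 * δ ^ 2 ≤ (β - w.re) * (w.re - α) - w.im ^ 2 := by nlinarith
  have hR : (-(T α β w)).re = ((β - w.re) * (w.re - α) - w.im ^ 2) / normSq (w - (α : ℂ)) := by
    rw [neg_re, T_re hw]; field_simp; ring
  have hI : (-(T α β w)).im = -(w.im * (β - α) / normSq (w - (α : ℂ))) := by
    rw [neg_im, T_im hw]
  have hRp : 0 < (-(T α β w)).re := by rw [hR]; positivity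
  have habs := abs_arg_lt_pi_div_two_iff.2 (Or.inl hRp)
  have hneg : (-(T α β w)).arg < 0 := by
    rw [arg_neg_iff]; rw [neg_im]; linarith
  have htan := tan_arg (-(T α β w))
  set θ : ℝ := -(-(T α β w)).arg with hθ
  have hθ0 : 0 < θ := by rw [hθ]; linarith
  have hθ1 : θ < Real.pi / 2 := by
    rw [hθ]; exact (neg_lt.1 (abs_lt.1 habs).1)
  have hlt := Real.lt_tan hθ0 hθ1
  have htanθ : Real.tan θ = w.im * (β - α) / ((β - w.re) * (w.re - α) - w.im ^ 2) := by
    rw [hθ, Real.tan_neg, htan, hI, hR]
    field_simp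
  have hle : w.im * (β - α) / ((β - w.re) * (w.re - α) - w.im ^ 2) ≤
      η * (β - α) / (3 / 4 * δ ^ 2) := by
    apply div_le_div₀
    · have : 0 ≤ η := by linarith
      have : 0 ≤ β - α := by linarith
      positivity
    · apply mul_le_mul_of_nonneg_right hwη.le; linarith
    · positivity
    · exact hre'
  have : θ ≤ η * (β - α) / (3 / 4 * δ ^ 2) := by
    rw [htanθ] at hlt; linarith
  have e2 : (T α β w).arg = Real.pi - θ := by rw [hθ]; linarith
  rw [e2]; linarith

/-- asymptotics at infinity -/
lemma asym {α β : ℝ} {g : ℝ → ℂ} (hg : Tendsto (fun y : ℝ => g y / y) atTop (𝓝 I))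
    (hi : ∀ y > 0, 0 < (g y).im) :
    Tendsto (fun y : ℝ => y * (T α β (g y)).arg) atTop (𝓝 (β - α)) := by
  have h1 : Tendsto (fun y : ℝ => (y : ℂ) * ((α - β : ℂ) / (g y - α))) atTop
      (𝓝 ((β - α : ℂ) * I)) := by
    have h2 : Tendsto (fun y : ℝ => (α - β : ℂ) / (g y / y - α / y)) atTop
        (𝓝 ((α - β : ℂ) / (I - 0))) := by
      apply Tendsto.div tendsto_const_nhds
      · apply hg.sub
        have : Tendsto (fun y : ℝ => ((α / y : ℝ) : ℂ)) atTop (𝓝 ((0 : ℝ) : ℂ)) :=
          (continuous_ofReal.tendsto _).comp (tendsto_const_nhds.div_atTop tendsto_id)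
        simpa using this
      · simp
    have e : (α - β : ℂ) / (I - 0) = (β - α : ℂ) * I := by
      rw [sub_zero, div_eq_iff I_ne_zero]
      rw [mul_assoc, I_mul_I]; ring
    rw [e] at h2
    apply h2.congr'
    filter_upwards [eventually_gt_atTop (0 : ℝ)] with y hy
    have hy' : (y : ℂ) ≠ 0 := by exact_mod_cast hy.ne'
    have hne := sub_ne (hi y hy) α
    field_simp
  have h3 := Complex.tendsto_mul_log_one_add_of_tendsto h1
  have h4 := (continuous_im.tendsto _).comp h3
  have e : ((β - α : ℂ) * I).im = β - α := by simp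
  rw [e] at h4
  apply h4.congr'
  filter_upwards [eventually_gt_atTop (0 : ℝ)] with y hy
  have hne := sub_ne (hi y hy) α
  have e2 : (1 : ℂ) + (α - β : ℂ) / (g y - α) = T α β (g y) := by
    unfold T
    field_simp
    ring
  simp only [Function.comp]
  rw [e2, im_ofReal_mul, log_im]

/-- the comparison function -/
def S (h : ℂ → ℂ) (a b α β : ℝ) (z : ℂ) : ℂ :=
  Complex.exp (I * (Complex.log (T α β (h z)) - Complex.log (T a b z)))

lemma norm_S (h : ℂ → ℂ) (a b α β : ℝ) (z : ℂ) :
    ‖S h a b α β z‖ = Real.exp ((T a b z).arg - (T α β (h z)).arg) := by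
  unfold S
  rw [Complex.norm_exp]
  congr 1
  simp [Complex.log_im]

/-- `arg T` tends to `0` outside the segment -/
lemma arg_T_small {a b t : ℝ} (ht : t < a ∨ b < t) (hab : a < b) {ε : ℝ} (hε : 0 < ε) :
    ∀ᶠ z in 𝓝[Hp] (t : ℂ), (T a b z).arg < ε := by
  have hpos : 0 < (t - b) / (t - a) := by
    rcases ht with h | h
    · exact div_pos_of_neg_of_neg (by linarith) (by linarith)
    · exact div_pos (by linarith) (by linarith)
  have hta : t - a ≠ 0 := by
    rcases ht with h | h
    · exact (by linarith : t - a < 0).ne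
    · exact (by linarith : 0 < t - a).ne'
  have hT : T a b t = (((t - b) / (t - a) : ℝ) : ℂ) := by
    unfold T; push_cast; rfl
  have hc : ContinuousAt (T a b) (t : ℂ) := by
    unfold T
    apply ContinuousAt.div
    · exact (continuous_id.sub continuous_const).continuousAt
    · exact (continuous_id.sub continuous_const).continuousAt
    · have : ((t - a : ℝ) : ℂ) ≠ 0 := by exact_mod_cast hta
      simpa using this
  have hca : ContinuousAt (fun z => (T a b z).arg) (t : ℂ) := by
    apply ContinuousAt.comp (g := Complex.arg)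
    · apply continuousAt_arg
      rw [hT, mem_slitPlane_iff]
      left
      rw [ofReal_re]; exact hpos
    · exact hc
  have h0 : (T a b t).arg = 0 := by
    rw [hT]; exact arg_ofReal_of_nonneg hpos.le
  have := hca.tendsto
  simp only [h0] at this
  exact (this.mono_left nhdsWithin_le_nhds).eventually (gt_mem_nhds hε)

theorem main (hM : S_MAX) (h : ℂ → ℂ) (a b a' b' : ℝ) (hd : DifferentiableOn ℂ h Hp)
    (hm : MapsTo h Hp Hp)
    (hinf : ∀ M : ℝ, Tendsto (fun z => h z / z) (NTI M) (𝓝 1)) (hab : a < b) (hab' : a' ≤ b')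
    (hbd : ∀ t : ℝ, a < t → t < b → ∀ δ > 0, ∀ᶠ z in 𝓝[Hp] (t : ℂ),
      a' - δ < (h z).re ∧ (h z).re < b' + δ ∧ (h z).im < δ)
    {δ : ℝ} (hδ : 0 < δ) : b - a ≤ b' - a' + 4 * δ := by
  set α : ℝ := a' - 2 * δ with hα
  set β : ℝ := b' + 2 * δ with hβ
  have hαβ : α < β := by linarith
  have hid : MapsTo (fun z : ℂ => z) Hp Hp := fun z hz => hz
  have key : ∀ z ∈ Hp, ‖S h a b α β z‖ ≤ 1 := by
    apply hM (S h a b α β) {a, b} (Real.exp Real.pi) (Set.toFinite _)
    · unfold S
      apply DifferentiableOn.cexp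
      apply DifferentiableOn.const_mul
      exact (T_diff hd hm hαβ).sub (T_diff (h := fun z => z) differentiableOn_id hid hab)
    · intro z hz
      rw [norm_S]
      apply Real.exp_le_exp.2
      have h1 := arg_le_pi (T a b z)
      have h2 : 0 ≤ (T α β (h z)).arg := arg_nonneg_iff.2 (T_im_pos hαβ (hm hz)).le
      linarith
    · intro t ht ε hε
      have hta : t ≠ a := fun h => ht (by simp [h])
      have htb : t ≠ b := fun h => ht (by simp [h])
      have hL : 0 < Real.log (1 + ε) := Real.log_pos (by linarith)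
      by_cases hin : a < t ∧ t < b
      · have hBA : 0 < β - α := by linarith
        set η : ℝ := min (δ / 2) (Real.log (1 + ε) * (3 / 4 * δ ^ 2) / (β - α)) with hη
        have hη0 : 0 < η := lt_min (by positivity) (by positivity)
        have hη1 : η ≤ δ / 2 := min_le_left _ _
        have hη2 : η * (β - α) / (3 / 4 * δ ^ 2) ≤ Real.log (1 + ε) := by
          have h1 : η ≤ Real.log (1 + ε) * (3 / 4 * δ ^ 2) / (β - α) := min_le_right _ _
          rw [div_le_iff₀ (by positivity)]
          rwa [le_div_iff₀ hBA] at h1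
        filter_upwards [hbd t hin.1 hin.2 η hη0, self_mem_nhdsWithin] with z hz hzH
        obtain ⟨h1, h2, h3⟩ := hz
        have h4 := arg_T_ge (α := α) (β := β) (δ := δ) (η := η) (hm hzH) h3 (by linarith)
          (by linarith) hη1
        rw [norm_S]
        rw [← Real.exp_log (show (0:ℝ) < 1 + ε by linarith)]
        apply Real.exp_le_exp.2
        have h5 := arg_le_pi (T a b z)
        linarith
      · have ht' : t < a ∨ b < t := by
          rcases lt_or_ge t a with h | h
          · exact Or.inl h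
          · right
            have h1 : a < t := lt_of_le_of_ne h (Ne.symm hta)
            rcases lt_or_ge t b with h2 | h2
            · exact absurd ⟨h1, h2⟩ hin
            · exact lt_of_le_of_ne h2 (Ne.symm htb)
        filter_upwards [arg_T_small ht' hab hL, self_mem_nhdsWithin] with z hz hzH
        rw [norm_S]
        rw [← Real.exp_log (show (0:ℝ) < 1 + ε by linarith)]
        apply Real.exp_le_exp.2
        have h2 : 0 ≤ (T α β (h z)).arg := arg_nonneg_iff.2 (T_im_pos hαβ (hm hzH)).le
        linarith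
  have hle : ∀ y : ℝ, 0 < y → y * (T a b (y * I)).arg ≤ y * (T α β (h (y * I))).arg := by
    intro y hy
    have hyI : (y * I : ℂ) ∈ Hp := by simp [Hp, hy]
    have h1 := key _ hyI
    rw [norm_S, Real.exp_le_one_iff] at h1
    apply mul_le_mul_of_nonneg_left _ hy.le
    linarith
  have l1 : Tendsto (fun y : ℝ => y * (T a b (y * I)).arg) atTop (𝓝 (b - a)) := by
    apply asym (g := fun y : ℝ => (y * I : ℂ))
    · apply tendsto_const_nhds.congr'
      filter_upwards [eventually_gt_atTop (0 : ℝ)] with y hy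
      have hy' : (y : ℂ) ≠ 0 := by exact_mod_cast hy.ne'
      field_simp
    · intro y hy; simp [hy]
  have l2 : Tendsto (fun y : ℝ => y * (T α β (h (y * I))).arg) atTop (𝓝 (β - α)) := by
    apply asym (g := fun y : ℝ => h (y * I))
    · have ht : Tendsto (fun y : ℝ => (y * I : ℂ)) atTop (NTI 1) := by
        unfold NTI
        rw [tendsto_inf]
        constructor
        · rw [tendsto_comap_iff]
          apply (tendsto_id (α := ℝ) (x := atTop)).congr'
          filter_upwards [eventually_gt_atTop (0 : ℝ)] with y hy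
          simp [abs_of_pos hy]
        · rw [tendsto_principal]
          filter_upwards [eventually_gt_atTop (0 : ℝ)] with y hy
          simp [abs_of_pos hy, hy]
      have h1 := ((hinf 1).comp ht).mul_const I
      rw [one_mul] at h1
      apply h1.congr'
      filter_upwards [eventually_gt_atTop (0 : ℝ)] with y hy
      have hy' : (y : ℂ) ≠ 0 := by exact_mod_cast hy.ne'
      have hI := I_ne_zero
      simp only [Function.comp]
      field_simp
    · intro y hy
      exact hm (show (y * I : ℂ) ∈ Hp by simp [Hp, hy])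
  have := le_of_tendsto_of_tendsto l1 l2
    ((eventually_gt_atTop (0 : ℝ)).mono fun y hy => hle y hy)
  linarith

theorem t (hM : S_MAX) : S_LEN := by
  intro h a b a' b' hd hm hinf hab hab' hbd
  apply le_of_forall_pos_le_add
  intro ε hε
  have := main hM h a b a' b' hd hm hinf hab hab' hbd (show 0 < ε / 4 by positivity)
  linarith

end Y290.LW.Len
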